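import Pool.Agent.W_MP_e80488_al.Bridge

set_option autoImplicit false

/-!
# Too many simple modules of non-maximal height for `W(2;(1,M))` (MP_e80488_al, Q1, disproof)

`k` is an algebraically closed field of characteristic `p > 2` and `M ≥ 2`. The minimal
`p`-envelope `X` of `W(2;(1,M))` has a character `χ` of non-maximal height whose reduced
enveloping algebra `u(X, χ)` has at least `(p - 1) p^M + 1` simple modules up to isomorphism,
while `p ^ mt(W(2;(1,1))) = p ^ 2`.
-/

namespace Pool.Agent.Results.MP_e80488_al.TooManySimples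

open Pool.Agent.W_MP_e80488_al

universe u

/-- **Main theorem.** The bound `p ^ mt(W(2;(1,1)))` on the number of simple `u(X, χ)`-modules
fails for the minimal `p`-envelope `X` of `W(2;(1,M))`, for every `M ≥ 2` and every odd prime `p`,
for some character `χ` of non-maximal height. -/
theorem result (p : ℕ) [Fact p.Prime] (hp : p ≠ 2) (k : Type u) [Field k] [IsAlgClosed k]
    [CharP k p] (M : ℕ) (hM : 2 ≤ M) :
    Car.EnvMinimal k p ![1, M] ∧ Car.mt k p ![1, 1] = 2 ∧
      p ^ Car.mt k p ![1, 1] < (p - 1) * p ^ M + 1 ∧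
      Car.ManySimples k p ![1, M] ((p - 1) * p ^ M + 1) := by
  have hp1 : 2 ≤ p := (Fact.out : p.Prime).two_le
  have hM0 : M ≠ 0 := by omega
  have hmt : Car.mt k p ![1, 1] = 2 := by
    rw [mt_bridge]
    exact mt_eq_two (k := k) (p := p) (M := 1) one_ne_zero
  refine ⟨min_bridge envMinimal, hmt, ?_, many_bridge (chi_height hM0 hp) (many_simples hM0 hp)⟩
  rw [hmt]
  have h1 : p ^ 2 ≤ p ^ M := Nat.pow_le_pow_right (by omega) hM
  have h2 : p ^ M ≤ (p - 1) * p ^ M := Nat.le_mul_of_pos_left _ (by omega)
  omega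

end Pool.Agent.Results.MP_e80488_al.TooManySimples
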